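import Pool.Agent.Helper30.Full.GoalsE

/-!
Packet E1 of MP_ac806c_lc: uniform domination for modules killed by `p`.
-/

set_option autoImplicit false
set_option linter.unusedSectionVars false

namespace Pool.Agent.Helper9.Full

open Pool.Agent.Helper30.Full

universe u

section

variable {p : ℕ} [Fact p.Prime] {d : ℕ} {X : Type u} [AddCommGroup X] [TopologicalSpace X]
  (b : Act p d X)

lemma T_pp (kill : ∀ x : X, p • x = 0) (j : ℕ) (k : Fin d → ℤ_[p]) (x : X) :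
    b.T (p ^ j • k) x = (b.T k ^ p ^ j) x := by
  obtain ⟨P, hP⟩ := T_ppow b j k
  rw [hP]
  show (b.T k ^ p ^ j) x + p • ((b.T k * Polynomial.aeval (b.T k) P) x) = _
  rw [kill, add_zero]

lemma pow_comm_apply (u v : Fin d → ℤ_[p]) (n : ℕ) (x : X) :
    b.T u ((b.T v ^ n) x) = (b.T v ^ n) (b.T u x) :=
  congrArg (fun f : AddMonoid.End X => f x) ((T_comm b u v).pow_right n)

variable [IsTopologicalAddGroup X] [CompactSpace X] [T2Space X]

/-- the local statement -/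
lemma local_dom (hb : HypE b) (u0 : Fin d → ℤ_[p]) (hu0 : ∀ u', u0 ≠ p • u') (m0 : ℕ)
    (hm0 : ∀ k, (∀ x, ∃ y, b.T (p ^ m0 • k) x = b.T u0 y) ∧
      ∀ x, b.T u0 x = 0 → b.T (p ^ m0 • k) x = 0) (r : Fin d → ℤ_[p]) :
    ∀ k, (∀ x, ∃ y, b.T (p ^ m0 • k) x = b.T (u0 + p ^ (m0 + 1) • r) y) ∧
      ∀ x, b.T (u0 + p ^ (m0 + 1) • r) x = 0 → b.T (p ^ m0 • k) x = 0 := by
  have hp := (Fact.out : p.Prime)
  have hp2 : 2 ≤ p := hp.two_le
  obtain ⟨q, hq⟩ : ∃ q, p = q + 2 := ⟨p - 2, by omega⟩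
  set v : Fin d → ℤ_[p] := p ^ m0 • r with hv
  set w : Fin d → ℤ_[p] := p ^ (m0 + 1) • r with hw
  set u : Fin d → ℤ_[p] := u0 + w with hu
  have hwv : w = p ^ 1 • v := by
    rw [hw, hv, pow_one, ← mul_smul, pow_succ, mul_comm]
  have hTw : ∀ x, b.T w x = (b.T v ^ (q + 2)) x := by
    intro x
    rw [hwv, T_pp b hb.kill, pow_one]
    exact congrArg (fun n : ℕ => (b.T v ^ n) x) hq
  have hTu : ∀ x, b.T u x = b.T u0 x + b.σ u0 ((b.T v ^ (q + 2)) x) := by
    intro x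
    rw [hu, T_add_apply, hTw]
  have hun : u ≠ 0 := by
    intro h0
    apply hu0 (-(p ^ m0 • r))
    have h1 : u0 = -w := eq_neg_of_add_eq_zero_left h0
    rw [h1, hw, smul_neg, ← mul_smul, pow_succ, mul_comm]
  -- the image
  have himg : AddMonoidHom.range (b.T u0) ≤ AddMonoidHom.range (b.T u) := by
    refine nakayama b u0 _ _ (closed_rangeT b u) ?_ ?_
    · rintro _ ⟨x, rfl⟩
      exact ⟨b.T u0 x, T_comm_apply b u u0 x⟩
    · rintro _ ⟨x, rfl⟩
      obtain ⟨y, hy⟩ := (hm0 r).1 x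
      obtain ⟨y', hy'⟩ := (hm0 r).1 y
      refine ⟨b.T u x, ⟨x, rfl⟩, -b.σ u0 (b.T u0 ((b.T v ^ q) y')), ?_, 0, AddSubgroup.zero_mem _,
        ?_⟩
      · refine AddSubgroup.neg_mem _ ⟨b.σ u0 ((b.T v ^ q) y'), ?_⟩
        exact T_comm_σ_apply b u0 u0 _
      · have h1 : (b.T v ^ (q + 2)) x = b.T u0 (b.T u0 ((b.T v ^ q) y')) := by
          have h2 : (b.T v ^ (q + 2)) x = (b.T v ^ q) (b.T v (b.T v x)) := by
            rw [pow_add, pow_two]; rfl
          rw [h2, hy, T_comm_apply b v u0, hy', ← pow_comm_apply, ← pow_comm_apply]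
        show b.T u0 x = b.T u x + b.T u0 (-b.σ u0 (b.T u0 ((b.T v ^ q) y'))) + p • (0 : X)
        rw [hTu, h1, map_neg, smul_zero, add_zero, T_comm_σ_apply]
        abel
  -- the kernel
  have hker : ∀ x, b.T u x = 0 → b.T u0 x = 0 := by
    intro x hx
    obtain ⟨m', hm'⟩ := hb.dom u hun
    have h0 : (b.T u0 ^ p ^ m') x = 0 := by
      rw [← T_pp b hb.kill]
      exact (hm' u0).2 x hx
    have step : ∀ j : ℕ, (b.T u0 ^ (j + 2)) x = 0 → (b.T u0 ^ (j + 1)) x = 0 := by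
      intro j hj
      set z := (b.T u0 ^ j) x with hz
      have e1 : (b.T u0 ^ (j + 1)) x = b.T u0 z := by rw [pow_succ', hz]; rfl
      have e2 : (b.T u0 ^ (j + 2)) x = b.T u0 (b.T u0 z) := by
        rw [show j + 2 = (j + 1) + 1 by ring, pow_succ']
        show b.T u0 ((b.T u0 ^ (j + 1)) x) = _
        rw [e1]
      rw [e2] at hj
      rw [e1]
      have h3 : b.T v (b.T u0 z) = 0 := (hm0 r).2 _ hj
      have h4 : b.T u0 (b.T v z) = 0 := by rw [T_comm_apply, h3]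
      have h5 : b.T v (b.T v z) = 0 := (hm0 r).2 _ h4
      have h6 : (b.T v ^ (q + 2)) z = 0 := by
        have h2 : (b.T v ^ (q + 2)) z = (b.T v ^ q) (b.T v (b.T v z)) := by
          rw [pow_add, pow_two]; rfl
        rw [h2, h5, map_zero]
      have h7 : b.T u z = 0 := by
        rw [hz, pow_comm_apply, hx, map_zero]
      rw [hTu, h6, map_zero, add_zero] at h7
      exact h7
    have all : ∀ j : ℕ, (b.T u0 ^ (j + 1)) x = 0 → b.T u0 x = 0 := by
      intro j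
      induction j with
      | zero => intro h; simpa using h
      | succ j ih => intro h; exact ih (step j h)
    obtain ⟨j, hj⟩ : ∃ j, p ^ m' = j + 1 := ⟨p ^ m' - 1, by
      have : 0 < p ^ m' := pow_pos hp.pos _
      omega⟩
    rw [hj] at h0
    exact all j h0
  intro k
  refine ⟨fun x => ?_, fun x hx => (hm0 k).2 x (hker x hx)⟩
  obtain ⟨y, hy⟩ := (hm0 k).1 x
  obtain ⟨y', hy'⟩ := himg ⟨y, rfl⟩
  exact ⟨y', by rw [hy]; exact hy'.symm⟩

end

section padic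

variable {p : ℕ} [Fact p.Prime] {d : ℕ}

lemma exists_smul_of_close (n : ℕ) (u u0 : Fin d → ℤ_[p])
    (h : ∀ i, ‖u i - u0 i‖ < (p : ℝ) ^ (-n : ℤ)) : ∃ r : Fin d → ℤ_[p], u = u0 + p ^ n • r := by
  have h1 : ∀ i, ∃ r : ℤ_[p], u i - u0 i = (p : ℤ_[p]) ^ n * r := by
    intro i
    have := (PadicInt.norm_le_pow_iff_mem_span_pow (u i - u0 i) n).1 (h i).le
    exact Ideal.mem_span_singleton'.1 this |>.imp fun r hr => by rw [← hr, mul_comm]
  choose r hr using h1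
  refine ⟨r, funext fun i => ?_⟩
  show u i = u0 i + (p ^ n • r) i
  have h2 : (p ^ n • r) i = (p : ℤ_[p]) ^ n * r i := by
    rw [Pi.smul_apply, nsmul_eq_mul, Nat.cast_pow]
  rw [h2, ← hr]; ring

lemma isCompact_nondiv : IsCompact {u : Fin d → ℤ_[p] | ∀ u', u ≠ p • u'} := by
  apply IsClosed.isCompact
  have h1 : {u : Fin d → ℤ_[p] | ∀ u', u ≠ p • u'} = {u | ∀ i, ‖u i‖ < 1}ᶜ := by
    ext u
    simp only [Set.mem_compl_iff]
    constructor
    · intro h hu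
      have h2 : ∀ i, ∃ r : ℤ_[p], u i = (p : ℤ_[p]) * r := by
        intro i
        have := (PadicInt.norm_lt_one_iff_dvd (u i)).1 (hu i)
        obtain ⟨r, hr⟩ := this
        exact ⟨r, hr⟩
      choose r hr using h2
      refine h r (funext fun i => ?_)
      rw [Pi.smul_apply, nsmul_eq_mul, hr]
    · intro h u' hu'
      apply h
      intro i
      rw [PadicInt.norm_lt_one_iff_dvd]
      refine ⟨u' i, ?_⟩
      rw [hu', Pi.smul_apply, nsmul_eq_mul]
  rw [h1]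
  apply IsOpen.isClosed_compl
  have h3 : {u : Fin d → ℤ_[p] | ∀ i, ‖u i‖ < 1} = ⋂ i, {u : Fin d → ℤ_[p] | ‖u i‖ < 1} := by
    ext u; simp
  rw [h3]
  exact isOpen_iInter_of_finite fun i => isOpen_lt (by fun_prop) continuous_const

end padic

theorem e1 : StmtE1.{u} := by
  intro p _ d X _ _ _ _ _ b hb
  classical
  have hp := (Fact.out : p.Prime)
  have hex : ∀ u : Fin d → ℤ_[p], (∀ u', u ≠ p • u') → ∃ m : ℕ,
      ∀ k, (∀ x, ∃ y, b.T (p ^ m • k) x = b.T u y) ∧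
        ∀ x, b.T u x = 0 → b.T (p ^ m • k) x = 0 := by
    intro u hu
    refine hb.dom u fun h0 => hu 0 ?_
    rw [h0, smul_zero]
  choose! m hm using hex
  obtain ⟨t, ht, hcov⟩ := (isCompact_nondiv (p := p) (d := d)).elim_nhds_subcover
    (fun u0 => {u | ∀ i, ‖u i - u0 i‖ < (p : ℝ) ^ (-((m u0 + 1 : ℕ) : ℤ))}) (by
      intro u0 hu0
      apply IsOpen.mem_nhds
      · have h3 : {u : Fin d → ℤ_[p] | ∀ i, ‖u i - u0 i‖ < (p : ℝ) ^ (-((m u0 + 1 : ℕ) : ℤ))} =
            ⋂ i, {u : Fin d → ℤ_[p] | ‖u i - u0 i‖ < (p : ℝ) ^ (-((m u0 + 1 : ℕ) : ℤ))} := by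
          ext u; simp
        rw [h3]
        exact isOpen_iInter_of_finite fun i => isOpen_lt (by fun_prop) continuous_const
      · intro i
        rw [sub_self, norm_zero]
        have : (0 : ℝ) < p := by exact_mod_cast hp.pos
        positivity)
  refine ⟨t.sup m, fun u hu k => ?_⟩
  obtain ⟨u0, hu0t, hu0⟩ := Set.mem_iUnion₂.1 (hcov hu)
  obtain ⟨r, hr⟩ := exists_smul_of_close (m u0 + 1) u u0 hu0
  have hle : m u0 ≤ t.sup m := Finset.le_sup hu0t
  have hk : p ^ t.sup m • k = p ^ m u0 • (p ^ (t.sup m - m u0) • k) := by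
    rw [← mul_smul, ← pow_add, Nat.add_sub_cancel' hle]
  rw [hk, hr]
  exact local_dom b hb u0 (ht u0 hu0t) (m u0) (hm u0 (ht u0 hu0t)) r _

end Pool.Agent.Helper9.Full
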