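import Pool.Agent.Helper30.Full.GoalsG
import Pool.Agent.Helper51.ProP2.Open

/-!
Packet GX of MP_ac806c_lc: existence of an element which is not small.
-/

set_option autoImplicit false
set_option linter.unusedSectionVars false

namespace Pool.Agent.Helper9.Full

open Pool.Agent.Helper30.Full Pool.Agent.Helper85.ProP Pool.Agent.Helper30.ProP
  Pool.Agent.Helper85.ProC

open scoped commutatorElement

universe u

/-! ### finitely many commuting elements of finite order -/

lemma finite_closure {Q : Type*} [Group Q] (S : Set Q) (hS : S.Finite)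
    (hc : ∀ x ∈ S, ∀ y ∈ S, x * y = y * x) (q : ℕ) (hq : 0 < q) (ht : ∀ x ∈ S, x ^ q = 1) :
    ((Subgroup.closure S : Subgroup Q) : Set Q).Finite := by
  have hcomm := Subgroup.isMulCommutative_closure hc
  have hfin : Finite S := hS
  letI : CommGroup (Subgroup.closure S) :=
    { (inferInstance : Group (Subgroup.closure S)) with
      mul_comm := fun a b => hcomm.is_comm.comm a b }
  have hfg : Group.FG (Subgroup.closure S) := Group.closure_finite_fg S
  have htor : ∀ x ∈ Subgroup.closure S, x ^ q = 1 := by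
    intro x hx
    induction hx using Subgroup.closure_induction with
    | mem x hx => exact ht x hx
    | one => exact one_pow q
    | mul x y hx hy ihx ihy =>
      have h1 : Commute x y :=
        congrArg Subtype.val (hcomm.is_comm.comm (⟨x, hx⟩ : Subgroup.closure S) ⟨y, hy⟩)
      rw [h1.mul_pow, ihx, ihy, one_mul]
    | inv x hx ihx => rw [inv_pow, ihx, inv_one]
  have h2 : Finite (Subgroup.closure S) := by
    refine CommGroup.finite_of_fg_isMulTorsion _ ?_
    intro x
    refine isOfFinOrder_iff_pow_eq_one.2 ⟨q, hq, ?_⟩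
    exact Subtype.ext (htor x x.2)
  exact Set.toFinite _

section

variable {p : ℕ} [Fact p.Prime] {G : Type u} [Group G] [TopologicalSpace G] [IsTopologicalGroup G]
  [CompactSpace G] [T2Space G] [TotallyDisconnectedSpace G]

/-- `g` acts trivially on `V^(p^k) / V^(p^(k+1))` -/
def DK (p : ℕ) (D : Sec G) (k : ℕ) : Subgroup G where
  carrier := {g | ∀ v : CC D, ∃ w : CC D, sg D g (p ^ k • v) - p ^ k • v = p ^ (k + 1) • w}
  one_mem' := fun v => ⟨0, by rw [map_one, smul_zero]; exact sub_self _⟩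
  mul_mem' := fun {g h} hg hh v => by
    obtain ⟨w, hw⟩ := hg v
    obtain ⟨w', hw'⟩ := hh v
    refine ⟨sg D g w' + w, ?_⟩
    have h1 : sg D (g * h) (p ^ k • v) = sg D g (sg D h (p ^ k • v)) := by rw [map_mul]; rfl
    have h2 : sg D h (p ^ k • v) = p ^ k • v + p ^ (k + 1) • w' := by rw [← hw']; abel
    have h3 : sg D g (p ^ k • v) = p ^ k • v + p ^ (k + 1) • w := by rw [← hw]; abel
    rw [h1, h2, map_add, h3, map_nsmul, smul_add]
    abel
  inv_mem' := fun {g} hg v => by
    obtain ⟨w, hw⟩ := hg v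
    refine ⟨-sg D g⁻¹ w, ?_⟩
    have h1 : sg D g⁻¹ (sg D g (p ^ k • v)) = p ^ k • v := by
      have : sg D g⁻¹ * sg D g = 1 := by rw [← map_mul, inv_mul_cancel, map_one]
      exact congrArg (fun f : AddMonoid.End (CC D) => f (p ^ k • v)) this
    have h2 : sg D g⁻¹ (sg D g (p ^ k • v) - p ^ k • v) = sg D g⁻¹ (p ^ (k + 1) • w) := by
      rw [hw]
    have h3 : sg D g⁻¹ (p ^ (k + 1) • w) = p ^ (k + 1) • sg D g⁻¹ w := map_nsmul _ _ _
    rw [map_sub, h1, h3] at h2
    rw [smul_neg, ← h2]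
    abel

lemma DK_normal (D : Sec G) (k : ℕ) : (DK p D k).Normal := by
  constructor
  intro g hg h v
  obtain ⟨w, hw⟩ := hg (sg D h⁻¹ v)
  refine ⟨sg D h w, ?_⟩
  have h1 : sg D (h * g * h⁻¹) (p ^ k • v) = sg D h (sg D g (sg D h⁻¹ (p ^ k • v))) := by
    rw [map_mul, map_mul]; rfl
  have h2 : sg D h (sg D h⁻¹ (p ^ k • v)) = p ^ k • v := by
    have : sg D h * sg D h⁻¹ = 1 := by rw [← map_mul, mul_inv_cancel, map_one]
    exact congrArg (fun f : AddMonoid.End (CC D) => f (p ^ k • v)) this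
  have h3 : sg D h⁻¹ (p ^ k • v) = p ^ k • sg D h⁻¹ v := map_nsmul _ _ _
  calc sg D (h * g * h⁻¹) (p ^ k • v) - p ^ k • v
      = sg D h (sg D g (p ^ k • sg D h⁻¹ v)) - sg D h (p ^ k • sg D h⁻¹ v) := by
        rw [h1, ← h3, h2]
    _ = sg D h (p ^ (k + 1) • w) := by rw [← map_sub, hw]
    _ = p ^ (k + 1) • sg D h w := map_nsmul _ _ _

lemma DK_closed (D : Sec G) (k : ℕ) : IsClosed (DK p D k : Set G) := by
  have h1 : (DK p D k : Set G) = ⋂ v : CC D, (fun g : G => sg D g (p ^ k • v) - p ^ k • v) ⁻¹'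
      Set.range (fun w : CC D => p ^ (k + 1) • w) := by
    ext g
    simp only [Set.mem_iInter, Set.mem_preimage, Set.mem_range]
    constructor
    · intro h v
      obtain ⟨w, hw⟩ := h v
      exact ⟨w, hw.symm⟩
    · intro h v
      obtain ⟨w, hw⟩ := h v
      exact ⟨w, hw.symm⟩
  rw [h1]
  refine isClosed_iInter fun v => ?_
  refine IsClosed.preimage ((cont_sg_left D _).sub continuous_const) ?_
  exact (isCompact_range (continuous_const_smul _)).isClosed

lemma DK_succ (D : Sec G) (k : ℕ) : DK p D k ≤ DK p D (k + 1) := by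
  intro g hg v
  obtain ⟨w, hw⟩ := hg v
  refine ⟨w, ?_⟩
  have h1 : p ^ (k + 1) • v = p • (p ^ k • v) := by rw [pow_succ', mul_smul]
  have h2 : p ^ (k + 1 + 1) • w = p • (p ^ (k + 1) • w) := by rw [pow_succ' p (k + 1), mul_smul]
  rw [h1, h2, map_nsmul, ← smul_sub, hw]

lemma DK_mono (D : Sec G) : Monotone (DK p D) := monotone_nat_of_le_succ (DK_succ D)

/-- a nilpotent action gives a power in `DK` -/
lemma pow_mem_DK (D : Sec G) (k c j : ℕ) (hj : c ≤ p ^ j) (g : G)
    (h : ∀ v : CC D, ∃ w, ((sg D g - 1 : AddMonoid.End (CC D)) ^ c) (p ^ k • v) =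
      p ^ (k + 1) • w) : g ^ p ^ j ∈ DK p D k := by
  intro v
  have hp := (Fact.out : p.Prime)
  obtain ⟨r, hr⟩ := (Commute.one_right (sg D g - 1 : AddMonoid.End (CC D))).exists_add_pow_prime_pow_eq
    hp j
  rw [sub_add_cancel, ← map_pow, one_pow, mul_one] at hr
  obtain ⟨w, hw⟩ := h v
  refine ⟨((sg D g - 1 : AddMonoid.End (CC D)) ^ (p ^ j - c)) w +
    ((sg D g - 1 : AddMonoid.End (CC D)) * r) v, ?_⟩
  rw [hr]
  have h1 : (sg D g - 1 : AddMonoid.End (CC D)) ^ p ^ j =
      (sg D g - 1 : AddMonoid.End (CC D)) ^ (p ^ j - c) *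
        (sg D g - 1 : AddMonoid.End (CC D)) ^ c := by
    rw [← pow_add, Nat.sub_add_cancel hj]
  rw [h1]
  show ((sg D g - 1 : AddMonoid.End (CC D)) ^ (p ^ j - c))
      (((sg D g - 1 : AddMonoid.End (CC D)) ^ c) (p ^ k • v)) + p ^ k • v +
      ((p : AddMonoid.End (CC D)) * (sg D g - 1) * r) (p ^ k • v) - p ^ k • v = _
  have h2 : ((p : AddMonoid.End (CC D)) * (sg D g - 1) * r) (p ^ k • v) =
      p ^ (k + 1) • ((sg D g - 1 : AddMonoid.End (CC D)) * r) v := by
    rw [mul_assoc, ← nsmul_eq_mul]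
    show p • (((sg D g - 1 : AddMonoid.End (CC D)) * r) (p ^ k • v)) = _
    rw [map_nsmul, ← mul_smul, ← pow_succ']
  rw [hw, h2, map_nsmul, smul_add]
  abel

/-- closed derived series -/
def Gc (G : Type u) [Group G] [TopologicalSpace G] [IsTopologicalGroup G] (i : ℕ) : Subgroup G :=
  (derivedSeries G i).topologicalClosure

lemma Gc_normal (i : ℕ) : (Gc G i).Normal := Subgroup.is_normal_topologicalClosure _

lemma Gc_closed (i : ℕ) : IsClosed (Gc G i : Set G) := Subgroup.isClosed_topologicalClosure _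

lemma Gc_comm (i : ℕ) (a b : G) (ha : a ∈ Gc G i) (hb : b ∈ Gc G i) : ⁅a, b⁆ ∈ Gc G (i + 1) := by
  have hcont : Continuous (Function.uncurry fun a b : G => ⁅a, b⁆) := by
    show Continuous fun z : G × G => z.1 * z.2 * z.1⁻¹ * z.2⁻¹
    fun_prop
  exact map_mem_closure₂ hcont ha hb fun x hx y hy =>
    Subgroup.commutator_mem_commutator hx hy

lemma sup_closed (A B : Subgroup G) [A.Normal] (hA : IsClosed (A : Set G))
    (hB : IsClosed (B : Set G)) : IsClosed ((A ⊔ B : Subgroup G) : Set G) := by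
  rw [Subgroup.normal_mul A B]
  exact (hA.isCompact.mul hB.isCompact).isClosed

lemma step_open (hG : PP p G) (hfg : FGG G) (D : Sec G)
    (hall : ∀ g : G, ∃ k j : ℕ, g ^ p ^ j ∈ DK p D k) (i : ℕ)
    (h : ∃ k, IsOpen ((DK p D k ⊔ Gc G i : Subgroup G) : Set G)) :
    ∃ k, IsOpen ((DK p D k ⊔ Gc G (i + 1) : Subgroup G) : Set G) := by
  classical
  obtain ⟨k, hk⟩ := h
  have hn1 := DK_normal (p := p) D
  have hn2 := Gc_normal (G := G)
  set W : Subgroup G := DK p D k ⊔ Gc G i with hW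
  have hWn : W.Normal := inferInstance
  obtain ⟨S, hS⟩ := (Pool.Agent.Helper51.ProP2.stmtOpen p G hG W hk hWn).2.1 hfg
  choose kk jj hkj using hall
  set k' : ℕ := max k (S.sup fun s => kk s) with hk'
  set j' : ℕ := S.sup fun s => jj s with hj'
  set N : Subgroup G := DK p D k' ⊔ Gc G (i + 1) with hN
  have hNn : N.Normal := inferInstance
  have hNc : IsClosed (N : Set G) := sup_closed _ _ (DK_closed D k') (Gc_closed _)
  refine ⟨k', ?_⟩
  have hT3 : T2Space (G ⧸ N) := by
    have : IsClosed ((N : Subgroup G) : Set G) := hNc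
    infer_instance
  set S' : Set (G ⧸ N) := (fun s : W => ((s : G) : G ⧸ N)) '' (S : Set W) with hS'
  have hkW : DK p D k ≤ N := (DK_mono D (le_max_left _ _)).trans le_sup_left
  have hrep : ∀ w ∈ W, ∃ x ∈ Gc G i, ((w : G) : G ⧸ N) = ((x : G) : G ⧸ N) := by
    intro w hw
    have hw' : w ∈ ((DK p D k ⊔ Gc G i : Subgroup G) : Set G) := hw
    rw [Subgroup.normal_mul] at hw'
    obtain ⟨d, hd, x, hx, rfl⟩ := Set.mem_mul.1 hw'
    refine ⟨x, hx, ?_⟩
    have h1 : ((d : G) : G ⧸ N) = 1 := (QuotientGroup.eq_one_iff d).2 (hkW hd)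
    rw [QuotientGroup.mk_mul, h1, one_mul]
  have hcomm : ∀ x ∈ S', ∀ y ∈ S', x * y = y * x := by
    rintro _ ⟨s, _, rfl⟩ _ ⟨t, _, rfl⟩
    obtain ⟨x, hx, ex⟩ := hrep s s.2
    obtain ⟨y, hy, ey⟩ := hrep t t.2
    show ((s : G) : G ⧸ N) * ((t : G) : G ⧸ N) = ((t : G) : G ⧸ N) * ((s : G) : G ⧸ N)
    rw [ex, ey]
    have h1 : ((⁅x, y⁆ : G) : G ⧸ N) = 1 :=
      (QuotientGroup.eq_one_iff _).2 (Subgroup.mem_sup_right (Gc_comm i x y hx hy))
    have h2 : ⁅((x : G) : G ⧸ N), ((y : G) : G ⧸ N)⁆ = 1 := h1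
    exact commutatorElement_eq_one_iff_mul_comm.1 h2
  have htor : ∀ x ∈ S', x ^ p ^ j' = 1 := by
    rintro _ ⟨s, hs, rfl⟩
    show (((s : G) : G ⧸ N)) ^ p ^ j' = 1
    rw [← QuotientGroup.mk_pow, QuotientGroup.eq_one_iff]
    have h1 : jj s ≤ j' := Finset.le_sup (f := fun s : W => jj s) hs
    have h2 : kk s ≤ k' := le_trans (Finset.le_sup (f := fun s : W => kk s) hs) (le_max_right _ _)
    have h3 : (s : G) ^ p ^ j' = ((s : G) ^ p ^ jj s) ^ p ^ (j' - jj s) := by
      rw [← pow_mul, ← pow_add, Nat.add_sub_cancel' h1]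
    rw [h3]
    exact Subgroup.mem_sup_left (Subgroup.pow_mem _ (DK_mono D h2 (hkj s)) _)
  have hfin := finite_closure S' ((Finset.finite_toSet S).image _) hcomm (p ^ j')
    (pow_pos (Fact.out : p.Prime).pos _) htor
  set H : Subgroup (G ⧸ N) := Subgroup.closure S' with hH
  have hHc : IsClosed (H : Set (G ⧸ N)) := hfin.isClosed
  set M : Subgroup G := H.comap (QuotientGroup.mk' N) with hM
  have hMc : IsClosed (M : Set G) := hHc.preimage QuotientGroup.continuous_mk
  have hWM : W ≤ M := by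
    have h1 : (Subgroup.closure (S : Set W)).topologicalClosure ≤ M.subgroupOf W := by
      refine Subgroup.topologicalClosure_minimal _ ?_ (hMc.preimage continuous_subtype_val)
      rw [Subgroup.closure_le]
      intro s hs
      exact Subgroup.subset_closure (Set.mem_image_of_mem _ hs)
    rw [hS] at h1
    intro w hw
    exact h1 (Subgroup.mem_top (⟨w, hw⟩ : W))
  have hWfin : Finite (G ⧸ W) := Subgroup.quotient_finite_of_isOpen W hk
  have hWfi : W.FiniteIndex := Subgroup.finiteIndex_of_finite_quotient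
  have hQ : Finite (G ⧸ N) := by
    have h1 : W.map (QuotientGroup.mk' N) ≤ H := by
      rw [Subgroup.map_le_iff_le_comap]; exact hWM
    have h2 : Finite (W.map (QuotientGroup.mk' N)) := (hfin.subset h1).to_subtype
    have h3 : (W.map (QuotientGroup.mk' N)).index ≠ 0 := by
      intro h0
      have h4 := Subgroup.index_map_dvd W (QuotientGroup.mk'_surjective N)
      rw [h0, zero_dvd_iff] at h4
      exact hWfi.index_ne_zero h4
    apply Nat.finite_of_card_ne_zero
    rw [← Subgroup.card_mul_index (W.map (QuotientGroup.mk' N))]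
    exact mul_ne_zero Nat.card_pos.ne' h3
  have hNfi : N.FiniteIndex := Subgroup.finiteIndex_of_finite_quotient
  exact Subgroup.isOpen_of_isClosed_of_finiteIndex N hNc

end

theorem gx : StmtGX.{u} := by
  intro p _ G _ _ _ _ _ _ hG hfg hsol V hVn hVc hab hH
  by_contra hcon
  push Not at hcon
  let D : Sec G :=
    { K := ⊥
      L := V
      Kn := inferInstance
      Kc := by
        have : ((⊥ : Subgroup G) : Set G) = {1} := Subgroup.coe_bot
        rw [this]; exact isClosed_singleton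
      Ln := hVn
      Lc := hVc
      KL := bot_le
      ab := fun a ha b hb => by
        rw [Subgroup.mem_bot]
        show a * b * a⁻¹ * b⁻¹ = 1
        rw [hab a ha b hb]; group }
  have hcm : ∀ (g a : G) (ha : a ∈ V), ∃ h : cm g a ∈ V,
      (mkC h : CC D) = (sg D g - 1 : AddMonoid.End (CC D)) (mkC ha) := by
    intro g a ha
    have h0 : g * a * g⁻¹ * a⁻¹ ∈ V := V.mul_mem (hVn.conj_mem a ha g) (V.inv_mem ha)
    refine ⟨h0, ?_⟩
    exact (TT_mk (D := D) g ha).symm
  have hiter : ∀ (g : G) (c : ℕ) (a : G) (ha : a ∈ V), ∃ h : (fun x => cm g x)^[c] a ∈ V,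
      (mkC h : CC D) = ((sg D g - 1 : AddMonoid.End (CC D)) ^ c) (mkC ha) := by
    intro g c
    induction c with
    | zero => intro a ha; exact ⟨ha, rfl⟩
    | succ c ih =>
      intro a ha
      obtain ⟨h1, e1⟩ := ih a ha
      obtain ⟨h2, e2⟩ := hcm g _ h1
      have h3 : (fun x => cm g x)^[c + 1] a = cm g ((fun x => cm g x)^[c] a) :=
        Function.iterate_succ_apply' _ _ _
      refine ⟨by rw [h3]; exact h2, ?_⟩
      have h4 : (mkC (by rw [h3]; exact h2 : (fun x => cm g x)^[c + 1] a ∈ V) : CC D) =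
          mkC h2 := by
        congr 1
      rw [h4, e2, e1, pow_succ']
      rfl
  have hinj : ∀ (a b : G) (ha : a ∈ V) (hb : b ∈ V), (mkC ha : CC D) = mkC hb → a = b := by
    intro a b ha hb h
    have h1 := (mkC_eq (D := D) ha hb).1 h
    have h2 : a⁻¹ * b = 1 := Subgroup.mem_bot.1 h1
    exact inv_mul_eq_one.1 h2
  have hall : ∀ g : G, ∃ k j : ℕ, g ^ p ^ j ∈ DK p D k := by
    intro g
    obtain ⟨k, c, hkc⟩ := hcon g
    refine ⟨k, c, pow_mem_DK D k c c (Nat.lt_pow_self (Fact.out : p.Prime).one_lt).le g ?_⟩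
    intro v
    obtain ⟨a, ha, rfl⟩ := mkC_surj v
    obtain ⟨u, hu, hu'⟩ := hkc a ha
    refine ⟨mkC hu, ?_⟩
    obtain ⟨h1, e1⟩ := hiter g c (a ^ p ^ k) (V.pow_mem ha _)
    have h2 : p ^ k • (mkC ha : CC D) = mkC (V.pow_mem ha _) := rfl
    rw [h2, ← e1]
    have h3 : p ^ (k + 1) • (mkC hu : CC D) = mkC (V.pow_mem hu _) := rfl
    rw [h3]
    congr 1
  have hopen : ∀ i : ℕ, ∃ k, IsOpen ((DK p D k ⊔ Gc G i : Subgroup G) : Set G) := by
    intro i
    induction i with
    | zero =>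
      refine ⟨0, ?_⟩
      have h1 : (DK p D 0 ⊔ Gc G 0 : Subgroup G) = ⊤ := by
        rw [eq_top_iff]
        refine le_trans ?_ le_sup_right
        exact Subgroup.le_topologicalClosure _
      rw [h1]
      exact isOpen_univ
    | succ i ih => exact step_open hG hfg D hall i ih
  obtain ⟨m, hm⟩ := hsol.solvable
  obtain ⟨k, hk⟩ := hopen m
  have h1 : Gc G m = ⊥ := by
    unfold Gc
    rw [hm]
    apply SetLike.coe_injective
    rw [Subgroup.topologicalClosure_coe, Subgroup.coe_bot]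
    exact closure_singleton
  rw [h1, sup_bot_eq] at hk
  refine hH k (DK p D k) hk ?_
  intro g hg v hv
  obtain ⟨w, hw⟩ := hg (mkC hv)
  obtain ⟨u, hu, rfl⟩ := mkC_surj w
  refine ⟨u, hu, ?_⟩
  obtain ⟨h2, e2⟩ := hcm g (v ^ p ^ k) (V.pow_mem hv _)
  refine hinj _ _ h2 (V.pow_mem hu _) ?_
  rw [e2]
  exact hw

end Pool.Agent.Helper9.Full
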