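import Pool.Agent.Helper30.Full.GoalsW

/-!
Packet W5 of MP_ac806c_lc.
-/

set_option autoImplicit false
set_option linter.unusedSectionVars false

namespace Pool.Agent.Helper9.Full

open Pool.Agent.Helper30.Full

universe u

section

variable {p : ℕ} [Fact p.Prime] {d : ℕ} {X : Type u} [AddCommGroup X] [TopologicalSpace X]
  (b : Act p d X)

/-- inclusion modulo `Ψ_n(g) X` -/
def Inc (n : ℕ) (A B : X → X) : Prop := ∀ x, ∃ y z, A x = B y + Psi b (e0 p d) n z

variable {b}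

lemma Inc.trans {n : ℕ} {A B C : X → X} (h1 : Inc b n A B) (h2 : Inc b n B C) : Inc b n A C := by
  intro x
  obtain ⟨y, z, hy⟩ := h1 x
  obtain ⟨y', z', hy'⟩ := h2 y
  exact ⟨y', z' + z, by rw [hy, hy', map_add, add_assoc]⟩

lemma Inc.of_sub (n : ℕ) {A B : X → X} (h : ∀ x, ∃ y, A x = B y) : Inc b n A B := fun x => by
  obtain ⟨y, hy⟩ := h x
  exact ⟨y, 0, by rw [hy, map_zero, add_zero]⟩

variable (b)

lemma Psi_apply (g : Fin d → ℤ_[p]) (n : ℕ) (x : X) :
    Psi b g n x = ∑ i ∈ Finset.range p, b.σ ((i * p ^ n) • g) x := by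
  unfold Psi
  exact AddMonoidHom.finsetSum_apply _ _ _

lemma Psi_σ (g k : Fin d → ℤ_[p]) (n : ℕ) (x : X) :
    Psi b g n (b.σ k x) = b.σ k (Psi b g n x) := by
  rw [Psi_apply, Psi_apply, map_sum]
  exact Finset.sum_congr rfl fun i _ => σ_comm_apply b _ _ _

lemma Psi_T (g k : Fin d → ℤ_[p]) (n : ℕ) (x : X) :
    Psi b g n (b.T k x) = b.T k (Psi b g n x) := by
  rw [T_apply, T_apply, map_sub, Psi_σ]

lemma T_succ (g : Fin d → ℤ_[p]) (n : ℕ) (x : X) :
    b.T (p ^ (n + 1) • g) x = b.T (p ^ n • g) (Psi b g n x) := by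
  have h1 : b.T (p ^ n • g) (Psi b g n x) =
      ∑ i ∈ Finset.range p, (b.σ (((i + 1) * p ^ n) • g) x - b.σ ((i * p ^ n) • g) x) := by
    rw [Psi_apply, map_sum]
    refine Finset.sum_congr rfl fun i _ => ?_
    rw [T_apply]
    congr 1
    have h2 : ((i + 1) * p ^ n) • g = p ^ n • g + (i * p ^ n) • g := by
      rw [add_mul, one_mul, add_smul, add_comm]
    rw [h2, b.add]
    rfl
  rw [h1, Finset.sum_range_sub (fun i => b.σ ((i * p ^ n) • g) x), T_apply]
  have h3 : p ^ (n + 1) = p * p ^ n := by rw [pow_succ, mul_comm]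
  rw [h3, zero_mul, zero_smul, b.zero]
  rfl

lemma T_mem_Psi (g : Fin d → ℤ_[p]) (n B : ℕ) (h : n + 1 ≤ B) :
    ∀ x, ∃ z, b.T (p ^ B • g) x = Psi b g n z := by
  induction B, h using Nat.le_induction with
  | base => intro x; exact ⟨b.T (p ^ n • g) x, by rw [T_succ, Psi_T]⟩
  | succ B _ ih => intro x; obtain ⟨z, hz⟩ := ih (Psi b g B x); exact ⟨z, by rw [T_succ, hz]⟩

variable [IsTopologicalAddGroup X] [CompactSpace X] [T2Space X]

lemma cont_Psi (g : Fin d → ℤ_[p]) (n : ℕ) : Continuous fun x : X => Psi b g n x := by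
  have h1 : (fun x : X => Psi b g n x) =
      fun x => ∑ i ∈ Finset.range p, b.σ ((i * p ^ n) • g) x := by
    funext x; exact Psi_apply b g n x
  rw [h1]
  exact continuous_finsetSum _ fun i _ => cont_σ b _

/-- the subgroup `Ψ_n(g) X` -/
noncomputable def PS (n : ℕ) : AddSubgroup X := AddMonoidHom.range (Psi b (e0 p d) n)

lemma closed_PS (n : ℕ) : IsClosed ((PS b n : AddSubgroup X) : Set X) := by
  have h1 : ((PS b n : AddSubgroup X) : Set X) = Set.range fun x : X => Psi b (e0 p d) n x := by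
    ext x; rfl
  rw [h1]
  exact (isCompact_range (cont_Psi b _ n)).isClosed

lemma inv_PS (n : ℕ) : ∀ k, ∀ y ∈ PS b n, b.σ k y ∈ PS b n := by
  rintro k _ ⟨x, rfl⟩
  exact ⟨b.σ k x, Psi_σ b _ _ _ _⟩

/-- all `k` acting trivially on `X / Ψ_n(g) X` -/
noncomputable def SM (n : ℕ) : Submodule ℤ_[p] (Fin d → ℤ_[p]) :=
  subm b Set.univ (PS b n) (closed_PS b n) (inv_PS b n)

lemma mem_SM {n : ℕ} {k : Fin d → ℤ_[p]} :
    k ∈ SM b n ↔ ∀ x, ∃ z, b.T k x = Psi b (e0 p d) n z := by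
  constructor
  · intro h x
    obtain ⟨z, hz⟩ := h x trivial
    exact ⟨z, hz.symm⟩
  · intro h x _
    obtain ⟨z, hz⟩ := h x
    exact ⟨z, hz.symm⟩

lemma inc_of_mem {n : ℕ} {u h : Fin d → ℤ_[p]} (hk : u + h ∈ SM b n) :
    Inc b n (fun x => b.T u x) (fun x => b.T h x) := by
  intro x
  obtain ⟨z, hz⟩ := (mem_SM b).1 hk x
  refine ⟨-b.σ u x, z, ?_⟩
  show b.T u x = b.T h (-b.σ u x) + Psi b (e0 p d) n z
  rw [← hz, T_add_apply, map_neg, T_comm_σ_apply]
  abel

/-- multiplication by powers of `p` -/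
def Pw (p : ℕ) (X : Type u) [AddCommGroup X] (a : ℕ) : X → X := fun x => p ^ a • x

lemma key {n E : ℕ} (hE : ∃ x : X, ∀ y : X, p ^ E • x ≠ Psi b (e0 p d) n y) {a c : ℕ} (ha : a ≤ E)
    (hInc : Inc b n (Pw p X a) (Pw p X c)) : c ≤ a := by
  by_contra hc
  have hc' : a + 1 ≤ c := by omega
  have h1 : AddMonoidHom.range (nsmulAddMonoidHom (α := X) (p ^ a)) ≤ PS b n := by
    refine nakayama b 0 _ _ (closed_PS b n) ?_ ?_
    · intro z _
      rw [T_zero]
      exact AddSubgroup.zero_mem _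
    · rintro _ ⟨x, rfl⟩
      obtain ⟨y, z, hyz⟩ := hInc x
      refine ⟨Psi b (e0 p d) n z, ⟨z, rfl⟩, 0, AddSubgroup.zero_mem _,
        p ^ a • (p ^ (c - (a + 1)) • y), ⟨p ^ (c - (a + 1)) • y, rfl⟩, ?_⟩
      have h2 : p ^ a • x = p ^ c • y + Psi b (e0 p d) n z := hyz
      have h3 : p ^ c = p * (p ^ a * p ^ (c - (a + 1))) := by
        rw [← pow_add, ← pow_succ']
        congr 1
        omega
      show p ^ a • x = _
      rw [h2, h3, mul_smul, mul_smul, map_zero, add_zero, add_comm]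
  obtain ⟨x, hx⟩ := hE
  obtain ⟨z, hz⟩ := h1 ⟨x, rfl⟩
  have hz' : Psi b (e0 p d) n z = p ^ a • x := hz
  refine hx (p ^ (E - a) • z) ?_
  rw [map_nsmul, hz', ← mul_smul, ← pow_add, Nat.sub_add_cancel ha]

end

section content

variable {p : ℕ} [Fact p.Prime] {d : ℕ}

lemma exists_not_pow_dvd (x : ℤ_[p]) (hx : x ≠ 0) : ∃ N : ℕ, ¬ (p : ℤ_[p]) ^ (N + 1) ∣ x := by
  refine ⟨x.valuation, fun h => ?_⟩
  have h1 := (PadicInt.mem_span_pow_iff_le_valuation x hx (x.valuation + 1)).1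
    (Ideal.mem_span_singleton.2 h)
  omega

lemma exists_content (u : Fin d → ℤ_[p]) (hne : u ≠ 0) :
    ∃ (j : ℕ) (u1 : Fin d → ℤ_[p]), u = p ^ j • u1 ∧ (∃ i, ¬ (p : ℤ_[p]) ∣ u1 i) ∧
      ∀ i, u i = (p : ℤ_[p]) ^ j * u1 i := by
  classical
  have hex : ∃ j : ℕ, ∃ i, ¬ (p : ℤ_[p]) ^ (j + 1) ∣ u i := by
    obtain ⟨i, hi⟩ := Function.ne_iff.1 hne
    obtain ⟨N, hN⟩ := exists_not_pow_dvd (u i) hi
    exact ⟨N, i, hN⟩
  set j := Nat.find hex with hj
  obtain ⟨i0, hi0⟩ := Nat.find_spec hex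
  have hdiv : ∀ i, (p : ℤ_[p]) ^ j ∣ u i := by
    intro i
    rcases Nat.eq_zero_or_pos j with h0 | h0
    · rw [h0, pow_zero]; exact one_dvd _
    · by_contra hcon
      exact Nat.find_min hex (m := j - 1) (by omega) ⟨i, by
        rw [Nat.sub_add_cancel h0]; exact hcon⟩
  choose u1 hu1 using hdiv
  refine ⟨j, u1, funext fun i => ?_, ⟨i0, fun h => hi0 ?_⟩, hu1⟩
  · rw [Pi.smul_apply, nsmul_eq_mul, Nat.cast_pow]; exact hu1 i
  · rw [hu1 i0, pow_succ]
    exact mul_dvd_mul_left _ h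

lemma p_pow_ne (j : ℕ) : ((p : ℤ_[p]) ^ j) ≠ 0 :=
  pow_ne_zero _ (by exact_mod_cast (Fact.out : p.Prime).ne_zero)

lemma le_of_pow_dvd {M a : ℕ} {y : ℤ_[p]} (hy : ¬ (p : ℤ_[p]) ∣ y)
    (h : (p : ℤ_[p]) ^ M ∣ (p : ℤ_[p]) ^ a * y) : M ≤ a := by
  by_contra hcon
  have h1 : (p : ℤ_[p]) ^ (a + 1) ∣ (p : ℤ_[p]) ^ a * y :=
    (pow_dvd_pow _ (by omega)).trans h
  rw [pow_succ] at h1
  exact hy ((mul_dvd_mul_iff_left (p_pow_ne a)).1 h1)

end content

theorem w5 : StmtW5.{u} := by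
  intro p _ d X _ _ _ _ _ b s hH hExp m hEst C n₀ hPad hSq ρ
  have hp := (Fact.out : p.Prime)
  have hp1 : 1 ≤ p := hp.one_lt.le
  set Cw : ℕ := 2 * p ^ m + p ^ m * (m + 1) with hCw
  set D : ℕ := Cw + C with hD
  set M : ℕ := (ρ + C) + m + Cw + C with hM
  obtain ⟨N1, hN1⟩ := hExp 1
  obtain ⟨NM, hNM⟩ := hExp M
  refine ⟨2 * m + 3 + D + NM + n₀ + (m + 1) + N1 + 1, fun B hB k hk => ?_⟩
  have hkS : ∀ n, n + 1 ≤ B → k ∈ SM b n := by
    intro n hn
    rw [mem_SM]
    intro x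
    obtain ⟨y, hy⟩ := hk x
    obtain ⟨z, hz⟩ := T_mem_Psi b (e0 p d) n B hn y
    exact ⟨z, by rw [hy, hz]⟩
  -- the parts of k
  set h : Fin d → ℤ_[p] := fun i => if (i : ℕ) < s then 0 else k i with hh
  set u : Fin d → ℤ_[p] := fun i => if (i : ℕ) < s then k i else 0 with hu
  set w : Fin d → ℤ_[p] := fun i => if 1 ≤ (i : ℕ) ∧ (i : ℕ) < s then k i else 0 with hw
  have hkuh : k = u + h := by
    funext i
    simp only [hu, hh, Pi.add_apply]
    split_ifs <;> simp
  have hsmall : ∀ h' : Fin d → ℤ_[p], (∀ i : Fin d, (i : ℕ) < s → h' i = 0) → Small b h' :=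
    fun h' hh' => (hH.small h').2 hh'
  have hhs : ∀ i : Fin d, (i : ℕ) < s → h i = 0 := fun i hi => by simp only [hh, if_pos hi]
  -- Step 1
  have step1 : ∀ i : Fin d, (i : ℕ) < s → (p : ℤ_[p]) ^ (B - m) ∣ k i := by
    intro i hi
    by_contra hcon
    have hui : u i = k i := by simp only [hu, if_pos hi]
    have hu0 : u ≠ 0 := by
      intro h0
      apply hcon
      rw [← hui, h0]
      exact dvd_zero _
    obtain ⟨j, u1, hj, ⟨i1, hi1⟩, hc⟩ := exists_content u hu0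
    have hj1 : j < B - m := by
      by_contra hjc
      apply hcon
      rw [← hui, hc i]
      exact Dvd.dvd.mul_right (pow_dvd_pow _ (by omega)) _
    have hunit : Unit' 0 s u1 := by
      refine ⟨i1, Nat.zero_le _, ?_, hi1⟩
      by_contra hcs
      have h0 : u i1 = 0 := by simp only [hu, if_neg hcs]
      rw [hc i1] at h0
      rcases mul_eq_zero.1 h0 with h1 | h1
      · exact p_pow_ne j h1
      · exact hi1 (by rw [h1]; exact dvd_zero _)
    have i1' : Inc b (B - 1) (Pw p X 1) (Pw p X 2) := by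
      have a1 : Inc b (B - 1) (Pw p X 1)
          (fun x => (b.T (e0 p d) ^ (p ^ (B - 1) * (p - 1))) x) := by
        intro x
        obtain ⟨y, z, hyz⟩ := hEst.p1 (B - 1) x
        exact ⟨y, z, by show p ^ 1 • x = _; rw [pow_one]; exact hyz⟩
      have a2 : Inc b (B - 1) (fun x => (b.T (e0 p d) ^ (p ^ (B - 1) * (p - 1))) x)
          (fun x => (b.T (e0 p d) ^ (p ^ (m + j))) x) := by
        apply Inc.of_sub
        intro x
        have h1 : p ^ (m + j) ≤ p ^ (B - 1) * (p - 1) := by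
          calc p ^ (m + j) ≤ p ^ (B - 1) := Nat.pow_le_pow_right hp.pos (by omega)
            _ = p ^ (B - 1) * 1 := (mul_one _).symm
            _ ≤ p ^ (B - 1) * (p - 1) := Nat.mul_le_mul_left _ (by
              have := hp.two_le; omega)
        refine ⟨(b.T (e0 p d) ^ (p ^ (B - 1) * (p - 1) - p ^ (m + j))) x, ?_⟩
        have h2 : b.T (e0 p d) ^ (p ^ (B - 1) * (p - 1)) =
            b.T (e0 p d) ^ (p ^ (m + j)) * b.T (e0 p d) ^ (p ^ (B - 1) * (p - 1) - p ^ (m + j)) := by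
          rw [← pow_add, Nat.add_sub_cancel' h1]
        rw [h2]
        rfl
      have a3 : Inc b (B - 1) (fun x => (b.T (e0 p d) ^ (p ^ (m + j))) x) (fun x => b.T u x) := by
        intro x
        obtain ⟨y, z, hyz⟩ := hEst.low (B - 1) j (by omega) u1 hunit x
        exact ⟨y, z, by rw [hj]; exact hyz⟩
      have a4 : Inc b (B - 1) (fun x => b.T u x) (fun x => b.T h x) :=
        inc_of_mem b (by rw [← hkuh]; exact hkS _ (by omega))
      have a5 : Inc b (B - 1) (fun x => b.T h x) (Pw p X 2) :=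
        Inc.of_sub _ (hH.sm2 h (hsmall h hhs))
      exact ((((a1.trans a2).trans a3).trans a4).trans a5)
    have := key b (hN1 (B - 1) (by omega)) le_rfl i1'
    omega
  -- T_w and T_h
  have hwh : ∀ n, n + 1 ≤ B - m → w + h ∈ SM b n := by
    intro n hn
    have h1 : w + h = k - (u - w) := by rw [hkuh]; abel
    have hzero : (0 : ℕ) < d := lt_of_lt_of_le hH.s_pos hH.s_le
    obtain ⟨c, hc⟩ := step1 ⟨0, hzero⟩ hH.s_pos
    have h2 : u - w = (p ^ (B - m - (n + 1)) * c) • (p ^ (n + 1) • e0 p d) := by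
      funext i
      have hsm : ((p ^ (B - m - (n + 1)) * c) • (p ^ (n + 1) • e0 p d)) i =
          (p : ℤ_[p]) ^ (B - m - (n + 1)) * c * ((p : ℤ_[p]) ^ (n + 1) * e0 p d i) := by
        rw [Pi.smul_apply, Pi.smul_apply, smul_eq_mul, nsmul_eq_mul, Nat.cast_pow]
      rw [hsm]
      simp only [hu, hw, Pi.sub_apply]
      by_cases hi0 : (i : ℕ) = 0
      · have hi : i = ⟨0, hzero⟩ := Fin.ext hi0
        have hs : (i : ℕ) < s := by rw [hi0]; exact hH.s_pos
        rw [if_pos hs, if_neg (by omega), e0_zero hi0, sub_zero, hi, hc]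
        have h3 : (p : ℤ_[p]) ^ (B - m) = p ^ (B - m - (n + 1)) * p ^ (n + 1) := by
          rw [← pow_add, Nat.sub_add_cancel hn]
        rw [h3]; ring
      · have he : e0 p d i = 0 := by unfold e0; rw [if_neg hi0]
        rw [he]
        by_cases hs : (i : ℕ) < s
        · rw [if_pos hs, if_pos ⟨by omega, hs⟩]; simp
        · rw [if_neg hs, if_neg (fun hcon => hs hcon.2)]; simp
    rw [h1, h2]
    refine Submodule.sub_mem _ (hkS n (by omega)) (Submodule.smul_mem _ _ ?_)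
    rw [mem_SM]
    exact T_mem_Psi b (e0 p d) n (n + 1) le_rfl
  have incwh : ∀ n, n + 1 ≤ B - m → Inc b n (fun x => b.T w x) (fun x => b.T h x) :=
    fun n hn => inc_of_mem b (hwh n hn)
  have inchw : ∀ n, n + 1 ≤ B - m → Inc b n (fun x => b.T h x) (fun x => b.T w x) :=
    fun n hn => inc_of_mem b (by rw [add_comm]; exact hwh n hn)
  -- data for w
  have hwdata : w ≠ 0 → ∃ a : ℕ, B - m ≤ a ∧ (∀ i, (p : ℤ_[p]) ^ a ∣ w i) ∧
      (∀ n, m + 1 ≤ n → n + m + 2 ≤ a → Inc b n (fun x => b.T w x) (Pw p X (a - n - m))) ∧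
      (∀ n, m + 1 ≤ n → n + m + 2 ≤ a → Inc b n (Pw p X (a - n - m - 2 + Cw))
        (fun x => b.T w x)) := by
    intro hw0
    obtain ⟨a, w1, ha, ⟨i1, hi1⟩, hc⟩ := exists_content w hw0
    have hrange : 1 ≤ (i1 : ℕ) ∧ (i1 : ℕ) < s := by
      by_contra hcs
      have h0 : w i1 = 0 := by simp only [hw, if_neg hcs]
      rw [hc i1] at h0
      rcases mul_eq_zero.1 h0 with h1 | h1
      · exact p_pow_ne a h1
      · exact hi1 (by rw [h1]; exact dvd_zero _)
    have hunit : Unit' 1 s w1 := ⟨i1, hrange.1, hrange.2, hi1⟩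
    refine ⟨a, ?_, fun i => ?_, fun n hn hna => ?_, fun n hn hna => ?_⟩
    · refine le_of_pow_dvd hi1 ?_
      rw [← hc i1]
      have : w i1 = k i1 := by simp only [hw, if_pos hrange]
      rw [this]
      exact step1 i1 hrange.2
    · rw [hc i]; exact dvd_mul_right _ _
    · intro x
      obtain ⟨y, z, hyz⟩ := hEst.up n a hn hna w1 x
      exact ⟨y, z, by rw [ha]; exact hyz⟩
    · intro x
      obtain ⟨y, z, hyz⟩ := hEst.lo n a hn hna w1 hunit x
      exact ⟨y, z, by rw [ha]; exact hyz⟩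
  -- data for h
  have hhdata : h ≠ 0 → ∃ l : ℕ, (∀ i, (p : ℤ_[p]) ^ l ∣ h i) ∧
      (∀ n, Inc b n (fun x => b.T h x) (Pw p X (l + 2))) ∧
      (∀ n ≥ n₀, Inc b n (Pw p X (l + C)) (fun x => b.T h x)) := by
    intro hh0
    obtain ⟨l, h1, hl, hun, hc⟩ := exists_content h hh0
    have h1s : ∀ i : Fin d, (i : ℕ) < s → h1 i = 0 := by
      intro i hi
      have h0 := hhs i hi
      rw [hc i] at h0
      rcases mul_eq_zero.1 h0 with h2 | h2
      · exact absurd h2 (p_pow_ne l)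
      · exact h2
    have hS := hSq h1 (hsmall h1 h1s)
    refine ⟨l, fun i => ?_, fun n => ?_, fun n hn x => ?_⟩
    · rw [hc i]; exact dvd_mul_right _ _
    · apply Inc.of_sub
      intro x
      obtain ⟨y, hy⟩ := (hS l x).1
      obtain ⟨y', hy'⟩ := hH.sm2 h1 (hsmall h1 h1s) y
      refine ⟨y', ?_⟩
      show b.T h x = p ^ (l + 2) • y'
      rw [hl, hy, hy', ← mul_smul, ← pow_add]
    · obtain ⟨y, z, hyz⟩ := hPad n hn h1 h1s hun x
      obtain ⟨y', hy'⟩ := (hS l y).2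
      refine ⟨y', p ^ l • z, ?_⟩
      show p ^ (l + C) • x = b.T h y' + Psi b (e0 p d) n (p ^ l • z)
      rw [pow_add, mul_smul, hyz, smul_add, hy', ← hl, map_nsmul]
  set n1 : ℕ := B - 2 * m - 3 with hn1
  set n2 : ℕ := n1 - D with hn2
  have hNn : ∀ n ≥ NM, ∀ a c : ℕ, a ≤ M → Inc b n (Pw p X a) (Pw p X c) → c ≤ a :=
    fun n hn a c ha hI => key b (hNM n hn) ha hI
  have zero_pw : ∀ n c, Inc b n (fun _ : X => (0 : X)) (Pw p X c) := fun n c =>
    Inc.of_sub _ fun x => ⟨0, by show (0 : X) = p ^ c • (0 : X); rw [smul_zero]⟩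
  have caseI : ∀ a : ℕ, B - m ≤ a → 
      (∀ n, m + 1 ≤ n → n + m + 2 ≤ a → Inc b n (fun x => b.T w x) (Pw p X (a - n - m))) →
      (∀ n, m + 1 ≤ n → n + m + 2 ≤ a → Inc b n (Pw p X (a - n - m - 2 + Cw))
        (fun x => b.T w x)) → B + (ρ + C) ≤ a := by
    intro a haB hup hlo
    by_contra hlt
    have b1 := (hlo n1 (by omega) (by omega)).trans (incwh n1 (by omega))
    by_cases hh0 : h = 0
    · have b2 : Inc b n1 (fun x => b.T h x) (Pw p X (a - n1 - m - 2 + Cw + 1)) := by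
        rw [hh0, T_zero]
        exact zero_pw _ _
      have := hNn n1 (by omega) _ _ (by omega) (b1.trans b2)
      omega
    · obtain ⟨l, _, hl1, hl2⟩ := hhdata hh0
      have b3 := hNn n1 (by omega) _ _ (by omega) (b1.trans (hl1 n1))
      have b4 := ((hl2 n2 (by omega)).trans (inchw n2 (by omega))).trans
        (hup n2 (by omega) (by omega))
      have b5 := hNn n2 (by omega) _ _ (by omega) b4
      omega
  constructor
  · intro i hi1 his
    by_cases hw0 : w = 0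
    · have : k i = w i := by simp only [hw, if_pos (And.intro hi1 his)]
      rw [this, hw0]
      exact dvd_zero _
    · obtain ⟨a, haB, hdv, hup, hlo⟩ := hwdata hw0
      have hb := caseI a haB hup hlo
      have : k i = w i := by simp only [hw, if_pos (And.intro hi1 his)]
      rw [this]
      exact (pow_dvd_pow _ (by omega)).trans (hdv i)
  · intro i his
    have hki : k i = h i := by simp only [hh, if_neg (not_lt.2 his)]
    rw [hki]
    by_cases hh0 : h = 0
    · rw [hh0]; exact dvd_zero _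
    · obtain ⟨l, hdv, hl1, hl2⟩ := hhdata hh0
      by_cases hlρ : ρ ≤ l
      · exact (pow_dvd_pow _ hlρ).trans (hdv i)
      · exfalso
        have b1 := (hl2 n1 (by omega)).trans (inchw n1 (by omega))
        by_cases hw0 : w = 0
        · have b2 : Inc b n1 (fun x => b.T w x) (Pw p X (l + C + 1)) := by
            rw [hw0, T_zero]
            exact zero_pw _ _
          have := hNn n1 (by omega) _ _ (by omega) (b1.trans b2)
          omega
        · obtain ⟨a, haB, _, hup, hlo⟩ := hwdata hw0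
          have hb := caseI a haB hup hlo
          have b3 := hNn n1 (by omega) _ _ (by omega) (b1.trans (hup n1 (by omega) (by omega)))
          omega

end Pool.Agent.Helper9.Full
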